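import Pool.Agent.H110.MB.B7

/-!
# A projectional skeleton compatible with no Markushevich basis (MP_b0f6ab_an: (a), (b), (c) all fail)

Let `T` be the tree of all sequences of length `≤ ω₁` with entries in `[0, 1]` and `X = ℓ₁(T)`. For a
countable `S ⊆ T` that contains all common initial segments of its (different) members of length `ω₁`
let `P_S e_t = e_t` for `t ∈ S`, `P_S e_t = γ(i) e_γ` if `t = γ|i ∉ S` for a (unique) `γ ∈ S` of length
`ω₁`, and `P_S e_t = 0` otherwise. This is a projectional skeleton with `‖P_S‖ ≤ 1`. The functional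
`f_γ(x) = x(γ) + ∑_{i < ω₁} γ(i) x(γ|i)` belongs to the induced subspace `D`. For every linearly dense
`H ⊆ X` some `f_γ` has uncountably many values on `H`, whereas (a), (b) or (c) for the set `H` of a
Markushevich basis would imply that every `f ∈ D` has only countably many values on `H`.
-/

set_option autoImplicit false

open Set Topology Filter

namespace Pool.Agent.Results.MP_b0f6ab_an.TwistedTree

open Pool.Agent.H110.MB

theorem exists_W : ∃ (W : Type) (_ : LinearOrder W) (_ : WellFoundedLT W),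
    (∀ i : W, (Set.Iic i).Countable) ∧ ¬ (univ : Set W).Countable := by
  refine ⟨(Cardinal.aleph 1).ord.ToType, inferInstance, inferInstance, ?_, ?_⟩
  · intro i
    have h1 : (Set.Iio i).Countable := by
      have h2 : Cardinal.mk (Set.Iio i) < Cardinal.aleph 1 := Cardinal.mk_Iio_toType_ord_lt i
      rw [← Set.countable_coe_iff, ← Cardinal.mk_le_aleph0_iff]
      have h3 : Cardinal.mk (Set.Iio i) < Order.succ Cardinal.aleph0 := by
        rw [Cardinal.succ_aleph0]
        exact h2
      exact Order.lt_succ_iff.1 h3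
    rw [← Set.Iio_insert]
    exact h1.insert i
  · intro h
    rw [Set.countable_univ_iff, ← Cardinal.mk_le_aleph0_iff, Cardinal.mk_toType,
      Cardinal.card_ord] at h
    exact absurd Cardinal.aleph0_lt_aleph_one (not_lt.2 h)

/-- There are a Banach space `X` and a projectional skeleton `(P_s)` on `X` with `‖P_s‖ ≤ 1` such that
for every Markushevich basis `(x_α, x*_α)` of `X` and `H = {x_α} ∪ {0}` the following hold, where `D` is
the induced subspace: (a) `H` is not `σ(X, D)`-closed; (b) there is no cofinal `Γ' ⊆ Γ`, `σ`-closed or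
not, with `P_s(H) ⊆ H` for all `s ∈ Γ'`; (c) `(H, σ(X, D))` is not monotonically Sokolov. Moreover on
every linearly dense `H ⊆ X` some `f ∈ D` has uncountably many values. -/
theorem result : ∃ (X : Type) (_ : NormedAddCommGroup X) (_ : NormedSpace ℝ X) (Γ : Type)
    (_ : PartialOrder Γ) (P : Γ → X →L[ℝ] X), CompleteSpace X ∧ IsSkeleton P ∧
      (∀ s, ‖P s‖ ≤ 1) ∧
      (∀ (Λ : Type) (x : Λ → X) (xs : Λ → X →L[ℝ] ℝ), IsMarkushevichBasis x xs →
        (¬ IsClosed[sigma (induced P)] (hset x)) ∧
        (¬ ∃ Γ' : Set Γ, (∀ s, ∃ t ∈ Γ', s ≤ t) ∧ ∀ s ∈ Γ', P s '' hset x ⊆ hset x) ∧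
        ¬ MonotonicallySokolov
          (TopologicalSpace.induced (Subtype.val : hset x → X) (sigma (induced P)))) ∧
      ∀ H : Set X, closure (Submodule.span ℝ H : Set X) = Set.univ →
        ∃ f ∈ induced P, ¬ (f '' H).Countable := by
  obtain ⟨W, _, _, hW, hunc⟩ := exists_W
  have hP := isSkeleton hW
  have key : ∀ H : Set (L1 (Tr W)), closure (Submodule.span ℝ H : Set (L1 (Tr W))) = Set.univ →
      ∃ f ∈ induced (Pr : Idx W → _), ¬ (f '' H).Countable := by
    intro H hH
    obtain ⟨γ, hγ⟩ := exists_uncountable hW hunc hH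
    exact ⟨fu γ, fu_mem γ, hγ⟩
  refine ⟨L1 (Tr W), inferInstance, inferInstance, Idx W, inferInstance, Pr, inferInstance, hP,
    norm_Pr, ?_, key⟩
  intro Λ x xs h
  obtain ⟨f, hf, hfc⟩ := key (range x) h.dense
  have hfc' : ¬ (f '' hset x).Countable := fun hc =>
    hfc (hc.mono (image_mono (subset_insert _ _)))
  obtain ⟨s₀, hs₀⟩ := exists_index hP hf
  have hinv : ∀ t, s₀ ≤ t → ¬ (Pr t '' hset x ⊆ hset x) := by
    intro t ht hsub
    have h1 := comp_mono hP ht hs₀
    refine hfc' (countable_of_invariant hP h hsub fun z => ?_)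
    have := congrArg (fun g : L1 (Tr W) →L[ℝ] ℝ => g z) h1
    simpa using this
  refine ⟨?_, ?_, ?_⟩
  · intro hcl
    obtain ⟨t, ht, hsub⟩ := exists_invariant hP hcl s₀
    exact hinv t ht hsub
  · rintro ⟨Γ', hcof, hΓ'⟩
    obtain ⟨t, ht, hst⟩ := hcof s₀
    exact hinv t hst (hΓ' t ht)
  · intro hS
    exact hfc' (countable_of_sokolov hP h hS hf)

end Pool.Agent.Results.MP_b0f6ab_an.TwistedTree
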